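import Mathlib

set_option autoImplicit false

namespace Pool.Agent.Results.MP_9803f8_al.Counter

/-- word length over `S` and its inverses -/
noncomputable def wl {G : Type} [Group G] (S : Finset G) (g : G) : ℕ :=
  sInf {n | ∃ l : List G, l.length = n ∧ (∀ s ∈ l, s ∈ S ∨ s⁻¹ ∈ S) ∧ l.prod = g}

/-- the word metrics of `(G,S)` and `(H,T)` are quasi-isometric -/
def QI {G H : Type} [Group G] [Group H] (S : Finset G) (T : Finset H) : Prop :=
  ∃ (f : G → H) (C : ℝ), 1 ≤ C ∧
    (∀ x y, C⁻¹ * wl S (x⁻¹ * y) - C ≤ wl T ((f x)⁻¹ * f y) ∧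
      (wl T ((f x)⁻¹ * f y) : ℝ) ≤ C * wl S (x⁻¹ * y) + C) ∧
    ∀ h, ∃ x, (wl T ((f x)⁻¹ * h) : ℝ) ≤ C

/-- highly transitive group -/
def HT (K : Type) [Group K] : Prop :=
  ∃ (Ω : Type) (_ : MulAction K Ω), Infinite Ω ∧ (∀ g : K, (∀ x : Ω, g • x = x) → g = 1) ∧
    ∀ (k : ℕ) (a b : Fin k → Ω), Function.Injective a → Function.Injective b →
      ∃ g : K, ∀ i, g • a i = b i

/-- commensurable groups -/
def Comm (G K : Type) [Group G] [Group K] : Prop :=
  ∃ (A : Subgroup G) (B : Subgroup K), A.FiniteIndex ∧ B.FiniteIndex ∧ Nonempty (A ≃* B)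

lemma words {G : Type} [Group G] (S : Finset G) (hS : Subgroup.closure (S : Set G) = ⊤) (g : G) :
    ∃ l : List G, l.length = wl S g ∧ (∀ s ∈ l, s ∈ S ∨ s⁻¹ ∈ S) ∧ l.prod = g := by
  have : ∃ l : List G, (∀ s ∈ l, s ∈ S ∨ s⁻¹ ∈ S) ∧ l.prod = g := by
    have hg : g ∈ Subgroup.closure (S : Set G) := hS ▸ Subgroup.mem_top g
    induction hg using Subgroup.closure_induction_left with
    | one => exact ⟨[], by simp, rfl⟩
    | mul_left x hx y _ ih =>
      obtain ⟨l, h1, rfl⟩ := ih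
      exact ⟨x :: l, List.forall_mem_cons.2 ⟨Or.inl hx, h1⟩, by simp⟩
    | inv_mul_cancel x hx y _ ih =>
      obtain ⟨l, h1, rfl⟩ := ih
      exact ⟨x⁻¹ :: l, List.forall_mem_cons.2 ⟨Or.inr (by simpa using hx), h1⟩, by simp⟩
  obtain ⟨l, h1, h2⟩ := this
  exact Nat.sInf_mem (s := {n | ∃ l : List G, l.length = n ∧ (∀ s ∈ l, s ∈ S ∨ s⁻¹ ∈ S) ∧
    l.prod = g}) ⟨_, l, rfl, h1, h2⟩

lemma wl_le {G : Type} [Group G] (S : Finset G) (l : List G) (h : ∀ s ∈ l, s ∈ S ∨ s⁻¹ ∈ S) :
    wl S l.prod ≤ l.length := Nat.sInf_le ⟨l, rfl, h, rfl⟩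

lemma qi {G H : Type} [Group G] [Group H] [DecidableEq H] (S : Finset G)
    (hS : Subgroup.closure (S : Set G) = ⊤) (f : G →* H) (hf : Function.Surjective f) (z : G)
    (hz : z ∈ S) (hk : ∀ g, f g = 1 → g = 1 ∨ g = z) :
    Subgroup.closure ((S.image f : Finset H) : Set H) = ⊤ ∧ QI S (S.image f) := by
  have hT : Subgroup.closure ((S.image f : Finset H) : Set H) = ⊤ := by
    rw [Finset.coe_image, ← MonoidHom.map_closure, hS, Subgroup.map_top_of_surjective _ hf]
  have h1 : ∀ g, wl (S.image f) (f g) ≤ wl S g := by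
    intro g
    obtain ⟨l, a1, a2, a3⟩ := words S hS g
    have := wl_le (S.image f) (l.map f) fun s hs => by
      obtain ⟨t, ht, rfl⟩ := List.mem_map.1 hs
      rcases a2 t ht with h | h
      · exact Or.inl (Finset.mem_image_of_mem _ h)
      · exact Or.inr (by rw [← map_inv]; exact Finset.mem_image_of_mem _ h)
    rwa [← map_list_prod, a3, List.length_map, a1] at this
  have h2 : ∀ g, wl S g ≤ wl (S.image f) (f g) + 1 := by
    intro g
    obtain ⟨l, a1, a2, a3⟩ := words _ hT (f g)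
    have : ∀ l : List H, (∀ s ∈ l, s ∈ S.image f ∨ s⁻¹ ∈ S.image f) →
        ∃ l' : List G, (∀ s ∈ l', s ∈ S ∨ s⁻¹ ∈ S) ∧ l'.map f = l := by
      intro l
      induction l with
      | nil => exact fun _ => ⟨[], by simp, rfl⟩
      | cons s l ih =>
        intro h
        obtain ⟨l', b1, rfl⟩ := ih fun t ht => h t (List.mem_cons_of_mem _ ht)
        rcases h s List.mem_cons_self with h | h
        · obtain ⟨t, ht, rfl⟩ := Finset.mem_image.1 h
          exact ⟨t :: l', List.forall_mem_cons.2 ⟨Or.inl ht, b1⟩, rfl⟩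
        · obtain ⟨t, ht, e⟩ := Finset.mem_image.1 h
          exact ⟨t⁻¹ :: l', List.forall_mem_cons.2 ⟨Or.inr (by simpa using ht), b1⟩, by simp [e]⟩
    obtain ⟨l', b1, rfl⟩ := this l a2
    rw [List.length_map] at a1
    rw [← map_list_prod] at a3
    rcases hk (g * l'.prod⁻¹) (by simp [a3]) with h | h
    · rw [mul_inv_eq_one.1 h] at a1 ⊢
      have := wl_le S l' b1
      omega
    · have := wl_le S (z :: l') (List.forall_mem_cons.2 ⟨Or.inl hz, b1⟩)
      rw [List.prod_cons, ← h, inv_mul_cancel_right, List.length_cons] at this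
      omega
  refine ⟨hT, f, 1, le_rfl, fun x y => ?_, fun h => ?_⟩
  · rw [← map_inv, ← map_mul]
    have a1 : (wl (S.image f) (f (x⁻¹ * y)) : ℝ) ≤ wl S (x⁻¹ * y) := by exact_mod_cast h1 _
    have a2 : (wl S (x⁻¹ * y) : ℝ) ≤ wl (S.image f) (f (x⁻¹ * y)) + 1 := by exact_mod_cast h2 _
    rw [inv_one, one_mul]
    constructor <;> linarith
  · obtain ⟨x, rfl⟩ := hf h
    refine ⟨x, ?_⟩
    have := wl_le (S.image f) [] (by simp)
    simp only [List.prod_nil, List.length_nil, Nat.le_zero] at this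
    simp [this]

lemma not_ht {G : Type} [Group G] (z : G) (hz : z ≠ 1) (hc : ∀ g, g * z = z * g)
    (hd : ∀ N : ℕ, N ≠ 0 → ∃ y, y ^ N = z) (K : Type) [Group K] (h : Comm G K) : ¬ HT K := by
  obtain ⟨A, B, hA, hB, ⟨φ⟩⟩ := h
  rintro ⟨Ω, _, hΩ, hf, ht⟩
  obtain ⟨y, hy⟩ := hd A.normalCore.index Subgroup.FiniteIndex.index_ne_zero
  have hzA : z ∈ A := A.normalCore_le (hy ▸ Subgroup.pow_index_mem _ y)
  let k : K := φ ⟨z, hzA⟩
  have hk : ∀ g ∈ B, g * k = k * g := by
    intro g hg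
    obtain ⟨a, ha⟩ := φ.surjective ⟨g, hg⟩
    have h1 : a * ⟨z, hzA⟩ = ⟨z, hzA⟩ * a := Subtype.ext (hc a)
    have h2 := congrArg (fun t => ((φ t : B) : K)) h1
    simpa [ha] using h2
  have hk1 : ∃ a : Ω, k • a ≠ a := by
    by_contra hcon
    push Not at hcon
    have h1 : φ ⟨z, hzA⟩ = 1 := Subtype.ext (hf k hcon)
    exact hz (congrArg Subtype.val (φ.map_eq_one_iff.1 h1))
  obtain ⟨a, ha⟩ := hk1
  have hex : ∀ c : {c : Ω // c ≠ a}, ∃ g : K, g • a = a ∧ g • k • a = c := by
    intro c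
    obtain ⟨g, hg⟩ := ht 2 ![a, k • a] ![a, c] (by simpa [Function.Injective, eq_comm] using ha)
      (by simpa [Function.Injective, eq_comm] using c.2)
    exact ⟨g, hg 0, hg 1⟩
  choose g g1 g2 using hex
  have : Infinite {c : Ω // c ≠ a} := (Set.Finite.infinite_compl (Set.finite_singleton a)).to_subtype
  obtain ⟨c, d, hcd, e⟩ := Finite.exists_ne_map_eq_of_infinite
    (fun c => (QuotientGroup.mk (g c) : K ⧸ B))
  have h1 := congrArg (· • a) (hk _ (QuotientGroup.eq.1 e))
  simp only [mul_smul, g1, g2] at h1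
  rw [(inv_smul_eq_iff.2 (g1 c).symm : (g c)⁻¹ • a = a), inv_smul_eq_iff, g2] at h1
  exact hcd (Subtype.ext h1.symm)

lemma ht_swap {X : Type} [DecidableEq X] (H : Subgroup (Equiv.Perm X))
    (h : ∀ x y, Equiv.swap x y ∈ H) (k : ℕ) : ∀ (a b : Fin k → X), Function.Injective a →
    Function.Injective b → ∃ g ∈ H, ∀ i, g (a i) = b i := by
  induction k with
  | zero => exact fun a b _ _ => ⟨1, H.one_mem, fun i => i.elim0⟩
  | succ k ih =>
    intro a b ha hb
    obtain ⟨g, hg, h1⟩ := ih (a ∘ Fin.succ) (b ∘ Fin.succ) (ha.comp (Fin.succ_injective _))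
      (hb.comp (Fin.succ_injective _))
    refine ⟨Equiv.swap (g (a 0)) (b 0) * g, H.mul_mem (h _ _) hg, fun i => ?_⟩
    refine Fin.cases (by simp) (fun i => ?_) i
    have e : g (a i.succ) = b i.succ := h1 i
    rw [Equiv.Perm.mul_apply, Equiv.swap_apply_of_ne_of_ne, e]
    · exact fun h => Fin.succ_ne_zero i (ha (g.injective h))
    · rw [e]; exact fun h => Fin.succ_ne_zero i (hb h)

lemma main (Q : Type) [Group Q] [Infinite Q] (S : Finset Q) (hS : Subgroup.closure (S : Set Q) = ⊤)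
    (z : Q) (hz : z ≠ 1) (hz2 : z * z = 1) (hc : ∀ g, g * z = z * g)
    (hd : ∀ N : ℕ, N ≠ 0 → ∃ y, y ^ N = z) :
    ∃ (G H : Type) (_ : Group G) (_ : Group H) (S : Finset G) (T : Finset H),
    Subgroup.closure (S : Set G) = ⊤ ∧ Subgroup.closure (T : Set H) = ⊤ ∧ HT H ∧ QI S T ∧
    ∀ (K : Type) [Group K], Comm G K → ¬ HT K := by
  classical
  let Z : Subgroup Q :=
    { carrier := {1, z}
      mul_mem' := by rintro a b (rfl | rfl) (rfl | rfl) <;> simp [hz2]
      one_mem' := Or.inl rfl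
      inv_mem' := by
        rintro a (rfl | rfl)
        · simp
        · exact Or.inr (inv_eq_of_mul_eq_one_right hz2) }
  have : Finite Z := (Set.toFinite ({1, z} : Set Q)).to_subtype
  let X := Q ⧸ Z
  have hX : Infinite X := by
    rw [← not_finite_iff_infinite]
    intro hf
    have : Finite Q := Finite.of_subgroup_quotient Z
    exact not_finite Q
  let ρ : Q →* Equiv.Perm X := MulAction.toPermHom Q X
  let x0 : X := QuotientGroup.mk 1
  have hfree : ∀ (q : Q) (x : X), ρ q x = x ↔ q = 1 ∨ q = z := by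
    intro q x
    obtain ⟨x, rfl⟩ := QuotientGroup.mk_surjective x
    change (QuotientGroup.mk (q * x) : Q ⧸ Z) = QuotientGroup.mk x ↔ _
    rw [eq_comm, QuotientGroup.eq]
    change (x⁻¹ * (q * x) = 1 ∨ x⁻¹ * (q * x) = z) ↔ _
    rw [inv_mul_eq_iff_eq_mul, inv_mul_eq_iff_eq_mul, hc, mul_one, mul_left_inj, mul_eq_right]
  have hρz : ρ z = 1 := Equiv.ext fun x => (hfree z x).2 (Or.inr rfl)
  let gs : Finset (Equiv.Perm X × Q) := insert (1, z) (S.image (fun s => (ρ s, s)) ∪
    S.image fun s => (Equiv.swap x0 (ρ s x0), 1))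
  let G := Subgroup.closure (gs : Set (Equiv.Perm X × Q))
  have g1 : ∀ q, (ρ q, q) ∈ G := by
    intro q
    have hq : q ∈ Subgroup.closure (S : Set Q) := hS ▸ Subgroup.mem_top q
    induction hq using Subgroup.closure_induction with
    | mem s hs => exact Subgroup.subset_closure (by simp only [gs]; simp; tauto)
    | one => rw [map_one]; exact G.one_mem
    | mul a b _ _ ha hb => rw [map_mul]; exact G.mul_mem ha hb
    | inv a _ ha => rw [map_inv]; exact G.inv_mem ha
  have g2 : ∀ q a b, (Equiv.swap a b, 1) ∈ G → (Equiv.swap (ρ q a) (ρ q b), 1) ∈ G := by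
    intro q a b h
    have := G.mul_mem (G.mul_mem (g1 q) h) (G.inv_mem (g1 q))
    rw [Equiv.swap_apply_apply]
    simpa using this
  have g3 : ∀ a b c, (Equiv.swap a b, (1 : Q)) ∈ G → (Equiv.swap b c, (1 : Q)) ∈ G →
      (Equiv.swap a c, (1 : Q)) ∈ G := by
    intro a b c h h'
    by_cases e1 : a = b
    · rwa [e1]
    by_cases e2 : a = c
    · rw [e2, Equiv.swap_self]; exact G.one_mem
    have := G.mul_mem (G.mul_mem h' h) h'
    rw [Prod.mk_mul_mk, Prod.mk_mul_mk, Equiv.swap_mul_swap_mul_swap e1 e2, Equiv.swap_comm] at this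
    simpa using this
  have g4 : ∀ q, (Equiv.swap x0 (ρ q x0), 1) ∈ G := by
    intro q
    have hq : q ∈ Subgroup.closure (S : Set Q) := hS ▸ Subgroup.mem_top q
    induction hq using Subgroup.closure_induction with
    | mem s hs =>
      exact Subgroup.subset_closure (Finset.mem_insert_of_mem (Finset.mem_union_right _
        (Finset.mem_image_of_mem _ hs)))
    | one => rw [map_one, Equiv.Perm.one_apply, Equiv.swap_self]; exact G.one_mem
    | mul a b _ _ ha hb => rw [map_mul]; exact g3 _ _ _ ha (g2 a _ _ hb)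
    | inv a _ ha =>
      have := g2 a⁻¹ _ _ ha
      rw [Equiv.swap_comm]
      simpa using this
  have g5 : ∀ a b, (Equiv.swap a b, 1) ∈ G := by
    have : ∀ a, (Equiv.swap x0 a, 1) ∈ G := by
      intro a
      obtain ⟨a, rfl⟩ := QuotientGroup.mk_surjective a
      have := g4 a
      change (Equiv.swap x0 (QuotientGroup.mk (a * 1)), 1) ∈ G at this
      rwa [mul_one] at this
    intro a b
    exact g3 _ x0 _ (by rw [Equiv.swap_comm]; exact this a) (this b)
  have g6 : ∀ g ∈ G, {x | g.1 x ≠ ρ g.2 x}.Finite := by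
    intro g hg
    induction hg using Subgroup.closure_induction with
    | mem s hs =>
      simp only [gs, Finset.coe_insert, Finset.coe_union, Finset.coe_image] at hs
      rcases hs with rfl | ⟨s, -, rfl⟩ | ⟨s, -, rfl⟩
      · simp [hρz]
      · simp
      · refine (Set.toFinite {x0, ρ s x0}).subset fun x hx => ?_
        by_contra h
        simp only [Set.mem_insert_iff, Set.mem_singleton_iff, not_or] at h
        exact hx (by simp [Equiv.swap_apply_of_ne_of_ne h.1 h.2])
    | one => simp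
    | mul a b _ _ ha hb =>
      refine (hb.union (ha.preimage (ρ b.2).injective.injOn)).subset fun x hx => ?_
      by_contra h
      simp only [Set.mem_union, Set.mem_ofPred_eq, Set.mem_preimage, not_or, not_not] at h
      exact hx (by simp [h.1, h.2])
    | inv a _ ha =>
      refine (ha.image (ρ a.2)).subset fun x hx => ⟨(ρ a.2)⁻¹ x, fun h => hx ?_, by simp⟩
      rw [Equiv.Perm.eq_inv_iff_eq.1 (rfl : (ρ a.2)⁻¹ x = (ρ a.2)⁻¹ x)] at h
      simp only [Prod.fst_inv, Prod.snd_inv, map_inv]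
      rw [Equiv.Perm.inv_eq_iff_eq, h]
  let f := ((MonoidHom.fst _ _).comp G.subtype).rangeRestrict
  have hzG : ((1 : Equiv.Perm X), z) ∈ G := Subgroup.subset_closure (by simp [gs])
  let SG : Finset G := gs.preimage Subtype.val Subtype.val_injective.injOn
  have hSG : Subgroup.closure (SG : Set G) = ⊤ := by
    rw [Finset.coe_preimage]; exact Subgroup.closure_closure_coe_preimage
  obtain ⟨q1, q2⟩ := qi SG hSG f (MonoidHom.rangeRestrict_surjective _) ⟨_, hzG⟩ (by simp [SG, gs])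
    (fun g hg => by
      have e : g.1.1 = 1 := congrArg Subtype.val hg
      obtain ⟨x, hx⟩ := (g6 g g.2).infinite_compl.nonempty
      simp only [Set.mem_compl_iff, Set.mem_ofPred_eq, not_not, e, Equiv.Perm.one_apply] at hx
      rcases (hfree _ _).1 hx.symm with h | h
      · exact Or.inl (Subtype.ext (Prod.ext e h))
      · exact Or.inr (Subtype.ext (Prod.ext e h)))
  refine ⟨G, _, inferInstance, inferInstance, SG, _, hSG, q1, ⟨X, inferInstance, hX, ?_, ?_⟩, q2,
    not_ht ⟨_, hzG⟩ (fun e => hz (congrArg (fun t : G => t.1.2) e))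
      (fun g => Subtype.ext (Prod.ext (by simp) (hc _))) fun N hN => ?_⟩
  · exact fun g hg => Subtype.ext (Equiv.ext hg)
  · intro k a b ha hb
    obtain ⟨g, hg, h⟩ := ht_swap ((MonoidHom.fst _ _).comp G.subtype).range
      (fun x y => ⟨⟨_, g5 x y⟩, rfl⟩) k a b ha hb
    exact ⟨⟨g, hg⟩, h⟩
  · obtain ⟨y, hy⟩ := hd N hN
    refine ⟨⟨_, g1 y⟩, Subtype.ext ?_⟩
    change (ρ y ^ N, y ^ N) = (1, z)
    rw [← map_pow, hy, hρz]

abbrev Y := ℚ × AddCircle (2 : ℚ)

def al : Equiv.Perm Y where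
  toFun p := (p.1, p.2 + p.1)
  invFun p := (p.1, p.2 - p.1)
  left_inv p := by simp
  right_inv p := by simp

def be (r : ℚ) : Equiv.Perm Y := Equiv.addRight (r, 0)
def ce (r : ℚ) : Equiv.Perm Y := Equiv.addRight (0, (r : AddCircle (2 : ℚ)))

def de : Equiv.Perm Y where
  toFun p := (2 * p.1, p.2)
  invFun p := (p.1 / 2, p.2)
  left_inv p := by simp
  right_inv p := by ext <;> simp; ring

lemma ce_pow (r : ℚ) (n : ℕ) : ce r ^ n = ce (n * r) := by
  induction n with
  | zero => ext <;> simp [ce]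
  | succ n ih => rw [pow_succ', ih]; ext <;> simp [ce, add_mul, add_assoc]

lemma ce_two (m : ℕ) : ce (2 * m) = 1 := by
  have : (((2 * m : ℚ)) : AddCircle (2 : ℚ)) = 0 :=
    (AddCircle.coe_eq_zero_iff _).2 ⟨m, by simp [mul_comm]⟩
  ext <;> simp [ce, this]

abbrev QQ : Subgroup (Equiv.Perm Y) := Subgroup.closure {al, be 1, de}

lemma be_mem (k : ℕ) : be (1 / 2 ^ k) ∈ QQ := by
  induction k with
  | zero => exact Subgroup.subset_closure (by simp)
  | succ k ih =>
    have hd : de ∈ QQ := Subgroup.subset_closure (by simp)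
    have : be (1 / 2 ^ (k + 1)) = de⁻¹ * be (1 / 2 ^ k) * de := by
      ext p
      · change p.1 + 1 / 2 ^ (k + 1) = (2 * p.1 + 1 / 2 ^ k) / 2
        simp only [pow_succ]; field_simp
      · change p.2 + 0 = p.2 + 0
        rfl
    rw [this]
    exact QQ.mul_mem (QQ.mul_mem (QQ.inv_mem hd) ih) hd

lemma ce_mem (k : ℕ) : ce (1 / 2 ^ k) ∈ QQ := by
  have ha : al ∈ QQ := Subgroup.subset_closure (by simp)
  have : ∀ r, ce r * (be r * al) = al * be r := by
    intro r; ext p
    · simp [ce, be, al]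
    · simp [ce, be, al, add_assoc]
  rw [eq_mul_inv_of_mul_eq (this _)]
  exact QQ.mul_mem (QQ.mul_mem ha (be_mem k)) (QQ.inv_mem (QQ.mul_mem (be_mem k) ha))

theorem result : ∃ (G H : Type) (_ : Group G) (_ : Group H) (S : Finset G) (T : Finset H),
    Subgroup.closure (S : Set G) = ⊤ ∧ Subgroup.closure (T : Set H) = ⊤ ∧ HT H ∧ QI S T ∧
    ∀ (K : Type) [Group K], Comm G K → ¬ HT K := by
  classical
  have : Infinite QQ := Infinite.of_injective (fun k : ℕ => (⟨_, be_mem k⟩ : QQ)) fun i j h => by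
    have h1 := congrArg (fun t : QQ => (t.1 0).1) h
    simpa [be] using h1
  have h1 : ce 1 ∈ QQ := by simpa using ce_mem 0
  refine main QQ (({al, be 1, de} : Finset _).preimage Subtype.val Subtype.val_injective.injOn) ?_
    ⟨ce 1, h1⟩ (fun h => ?_) (Subtype.ext ?_) (fun g => Subtype.ext ?_) fun N hN => ?_
  · rw [Finset.coe_preimage]
    simp only [Finset.coe_insert, Finset.coe_singleton]
    exact Subgroup.closure_closure_coe_preimage
  · have h2 := congrArg (fun t : QQ => (t.1 0).2) h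
    simp only [ce, Equiv.coe_addRight, zero_add, OneMemClass.coe_one, Equiv.Perm.coe_one, id_eq,
      Prod.snd_zero] at h2
    obtain ⟨n, hn⟩ := (AddCircle.coe_eq_zero_iff _).1 h2
    rw [zsmul_eq_mul] at hn
    have : n * 2 = 1 := by exact_mod_cast hn
    omega
  · change ce 1 * ce 1 = 1
    rw [← sq, ce_pow]
    simpa using ce_two 1
  · obtain ⟨g, hg⟩ := g
    change g * ce 1 = ce 1 * g
    induction hg using Subgroup.closure_induction with
    | mem s hs =>
      rcases hs with rfl | rfl | rfl <;> ext p <;> simp [ce, be, al, de, add_right_comm]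
    | one => simp
    | mul a b _ _ ha hb => rw [mul_assoc, hb, ← mul_assoc, ha, mul_assoc]
    | inv a _ ha => exact (Commute.inv_left ha)
  · obtain ⟨k, m, hm, rfl⟩ := Nat.exists_eq_two_pow_mul_odd hN
    obtain ⟨j, rfl⟩ := hm
    refine ⟨⟨_, ce_mem k⟩, Subtype.ext ?_⟩
    change ce _ ^ _ = ce 1
    rw [pow_mul, ce_pow, show ((2 ^ k : ℕ) : ℚ) * (1 / 2 ^ k) = 1 by push_cast; field_simp,
      pow_succ, ce_pow]
    have := ce_two j
    push_cast
    rw [mul_one, this, one_mul]

end Pool.Agent.Results.MP_9803f8_al.Counter
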